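import Pool.Agent.R926.PH.PrimeAP
import Pool.Agent.W69.MD.Iter
import Pool.Agent.W69.HH.Paley

/-! Partial Hadamard matrices with almost half as many rows as columns. -/

set_option autoImplicit false

namespace Pool.Agent.R926.PH

open Finset Matrix Pool.Agent.W851.Had Pool.Agent.H108R3.Had Pool.Agent.W69.MD

/-- the exponent of the `log*` theorem is small -/
lemma small_exp (C : ℕ) (hC : 2 ≤ C) : ∃ N : ℕ, ∀ n : ℕ, N ≤ n → ∃ k : ℕ, n ≤ tow k ∧
    ((2 ^ (C ^ (k + 1)) : ℕ) : ℝ) ≤ Real.log n := by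
  obtain ⟨a₀, ha₀⟩ := Pool.Agent.W69.MD.exp_le_tow C 4 hC
  refine ⟨tow (a₀ + 2) + 1, fun n hn => ?_⟩
  have hex : ∃ k, n ≤ tow k := ⟨n, (lt_tow n).le⟩
  obtain ⟨k, hk1, hk2⟩ : ∃ k, n ≤ tow k ∧ ∀ i < k, tow i < n :=
    ⟨Nat.find hex, Nat.find_spec hex, fun i hi => not_le.1 (Nat.find_min hex hi)⟩
  have hka : a₀ + 2 < k := by
    by_contra hcon
    push Not at hcon
    have := hk1.trans (tow_mono hcon)
    omega
  obtain ⟨a, ha⟩ : ∃ a, k = a + 3 := ⟨k - 3, by omega⟩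
  have h1 : (tow (a + 2 * 1) : ℝ) ≤ n := by
    exact_mod_cast (hk2 (a + 2) (by omega)).le
  have h2 := Pool.Agent.W69.MD.iter_log_tow 1 a n h1
  rw [Function.iterate_one] at h2
  have h3 := ha₀ a (by omega)
  refine ⟨k, hk1, ?_⟩
  have e : k + 1 = a + 4 := by omega
  rw [e]
  refine le_trans ?_ (h3.trans h2)
  push_cast
  set u : ℝ := 2 ^ (C ^ (a + 4)) with hu
  have hu0 : 0 < u := by positivity
  have := Real.add_one_le_exp (2 * u)
  linarith

/-- two Hadamard orders near `n / 2` with sum `n` -/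
theorem orders (A : ℕ) : ∃ N₀ : ℕ, 3 ≤ N₀ ∧ ∀ n : ℕ, N₀ ≤ n → 4 ∣ n →
    ∃ b : ℕ, HasHad b ∧ HasHad (n - b) ∧ 2 * b ≤ n ∧ (n : ℝ) / 2 - n / Real.log n ^ A ≤ b := by
  obtain ⟨C, hC, hhad⟩ := main_had
  obtain ⟨N1, hN1⟩ := small_exp C hC
  obtain ⟨y0, hy0⟩ := exists_prime A 2
  obtain ⟨N2, hN2⟩ := evN _ (Real.tendsto_log_atTop.eventually_ge_atTop (2 ^ (A + 4)))
  refine ⟨max (max N1 (2 * y0 + 16)) N2,
    le_trans (by omega) ((le_max_right N1 (2 * y0 + 16)).trans (le_max_left _ N2)), fun n hn h4 => ?_⟩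
  have hn1 : N1 ≤ n := (le_max_left _ _).trans ((le_max_left _ _).trans hn)
  have hn2 : 2 * y0 + 16 ≤ n := (le_max_right _ _).trans ((le_max_left _ _).trans hn)
  have hL := hN2 n ((le_max_right _ _).trans hn)
  obtain ⟨k, hk, hM⟩ := hN1 n hn1
  set t : ℕ := C ^ (k + 1) with ht
  have ht2 : 2 ≤ t := by
    calc 2 ≤ C := hC
      _ = C ^ 1 := (pow_one C).symm
      _ ≤ C ^ (k + 1) := Nat.pow_le_pow_right (by omega) (by omega)
  set M : ℕ := 2 ^ t with hMd
  have hM4 : 4 ∣ M := by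
    rw [hMd, show 4 = 2 ^ 2 by norm_num]
    exact pow_dvd_pow 2 ht2
  have hM0 : 0 < M := by positivity
  obtain ⟨m, hm⟩ := h4
  set y : ℕ := n / 2 - 1 with hy
  have hyn : 2 * y + 2 = n := by omega
  have hyy0 : y0 ≤ y := by omega
  have hyR : 2 * (y : ℝ) + 2 = n := by exact_mod_cast hyn
  have hy7 : (7 : ℝ) ≤ y := by exact_mod_cast (by omega : 7 ≤ y)
  have hlog : Real.log n / 2 ≤ Real.log y := by
    have h5 : Real.log ((n : ℝ) / 4) ≤ Real.log y := Real.log_le_log (by linarith) (by linarith)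
    rw [Real.log_div (by linarith) (by norm_num)] at h5
    have h6 : Real.log 4 = 2 * Real.log 2 := by
      rw [show (4 : ℝ) = 2 ^ 2 by norm_num, Real.log_pow]; norm_num
    have h7 := Real.log_two_lt_d9
    have h8 : (2 : ℝ) ^ 4 ≤ 2 ^ (A + 4) := pow_le_pow_right₀ (by norm_num) (by omega)
    norm_num at h8
    linarith
  set L : ℝ := Real.log n with hLd
  have hL16 : (16 : ℝ) ≤ L := by
    refine le_trans ?_ hL
    calc (16 : ℝ) = 2 ^ 4 := by norm_num
      _ ≤ 2 ^ (A + 4) := pow_le_pow_right₀ (by norm_num) (by omega)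
  have hqy : (M : ℝ) ≤ Real.log y ^ 2 := by
    refine hM.trans ?_
    nlinarith
  have hcop : (n - 1).Coprime M := by
    rw [hMd]
    apply Nat.Coprime.pow_right
    rw [Nat.coprime_two_right]
    exact ⟨2 * m - 1, by omega⟩
  obtain ⟨p, hp, hpM, hp1, hp2⟩ := hy0 y hyy0 M (n - 1) hM0 hqy hcop
  have hp3 : p % 4 = 3 := by
    have h5 : p ≡ n - 1 [MOD 4] := hpM.of_dvd hM4
    unfold Nat.ModEq at h5
    omega
  haveI : Fact p.Prime := ⟨hp⟩
  have hPal : HasHad (p + 1) := Pool.Agent.W69.HH.paley hp3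
  -- the complementary order
  have hle : p + 1 ≤ n := by omega
  have hdvd : M ∣ n - (p + 1) := by
    have h5 : p + 1 ≡ n [MOD M] := by
      have h6 := hpM.add_right 1
      rwa [show n - 1 + 1 = n by omega] at h6
    exact (Nat.modEq_iff_dvd' hle).1 h5
  obtain ⟨q, hq⟩ := hdvd
  have hqn : q ≤ tow k := by
    refine le_trans ?_ hk
    calc q ≤ M * q := Nat.le_mul_of_pos_left q hM0
      _ = n - (p + 1) := hq.symm
      _ ≤ n := Nat.sub_le _ _
  have hOther : HasHad (n - (p + 1)) := by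
    rw [hq]
    exact hhad k q t hqn le_rfl
  refine ⟨p + 1, hPal, hOther, by omega, ?_⟩
  -- the number of rows
  have hL0 : 0 < L := by linarith
  have hly0 : 0 < Real.log y := by linarith
  have h5 : (y : ℝ) / Real.log y ^ (A + 1) ≤ n / L ^ A := by
    have h6 : (L / 2) ^ (A + 1) ≤ Real.log y ^ (A + 1) := pow_le_pow_left₀ (by linarith) hlog _
    have h7 : L ^ A ≤ (L / 2) ^ (A + 1) := by
      rw [div_pow, le_div_iff₀ (by positivity), pow_succ L A]
      apply mul_le_mul_of_nonneg_left _ (by positivity)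
      exact (pow_le_pow_right₀ (by norm_num) (by omega)).trans hL
    exact div_le_div₀ (by linarith) (by linarith) (by positivity) (h7.trans h6)
  push_cast
  linarith

/-- two Hadamard matrices side by side, twice -/
theorem side2 {a b : ℕ} (ha : HasHad a) (hb : HasHad b) (hab : b ≤ a) :
    ∃ M M' : Matrix (Fin b) (Fin (a + b)) ℤ, (∀ i j, M i j = 1 ∨ M i j = -1) ∧
      (∀ i j, M' i j = 1 ∨ M' i j = -1) ∧
      M * M.transpose = ((a + b : ℕ) : ℤ) • (1 : Matrix (Fin b) (Fin b) ℤ) ∧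
      M' * M'.transpose = ((a + b : ℕ) : ℤ) • (1 : Matrix (Fin b) (Fin b) ℤ) ∧
      M * M'.transpose = ((a : ℤ) - b) • (1 : Matrix (Fin b) (Fin b) ℤ) := by
  obtain ⟨A, hA, hAA⟩ := ha
  obtain ⟨B, hB, hBB⟩ := hb
  have e1 : ∀ i j, ∑ x, A (Fin.castLE hab i) x * A (Fin.castLE hab j) x
      = (a : ℤ) * (1 : Matrix (Fin b) (Fin b) ℤ) i j := by
    intro i j
    have h1 := congrFun (congrFun hAA (Fin.castLE hab i)) (Fin.castLE hab j)
    rw [Matrix.mul_apply] at h1
    simp only [Matrix.transpose_apply] at h1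
    rw [h1, Matrix.smul_apply, smul_eq_mul]
    by_cases hij : i = j
    · subst hij; simp
    · have hij' : Fin.castLE hab i ≠ Fin.castLE hab j := fun h => hij (Fin.castLE_injective hab h)
      simp [Matrix.one_apply_ne hij, Matrix.one_apply_ne hij']
  have e2 : ∀ i j, ∑ x, B i x * B j x = (b : ℤ) * (1 : Matrix (Fin b) (Fin b) ℤ) i j := by
    intro i j
    have h1 := congrFun (congrFun hBB i) j
    rw [Matrix.mul_apply] at h1
    simp only [Matrix.transpose_apply] at h1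
    rw [h1, Matrix.smul_apply, smul_eq_mul]
  refine ⟨Matrix.of fun i j => Fin.addCases (fun j => A (Fin.castLE hab i) j) (fun j => B i j) j,
    Matrix.of fun i j => Fin.addCases (fun j => A (Fin.castLE hab i) j) (fun j => -B i j) j,
    ?_, ?_, ?_, ?_, ?_⟩
  · intro i j
    refine Fin.addCases (fun j => ?_) (fun j => ?_) j
    · simp only [Matrix.of_apply, Fin.addCases_left]; exact hA _ _
    · simp only [Matrix.of_apply, Fin.addCases_right]; exact hB _ _
  · intro i j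
    refine Fin.addCases (fun j => ?_) (fun j => ?_) j
    · simp only [Matrix.of_apply, Fin.addCases_left]; exact hA _ _
    · simp only [Matrix.of_apply, Fin.addCases_right]
      rcases hB i j with h | h <;> rw [h] <;> simp
  · ext i j
    rw [Matrix.mul_apply, Fin.sum_univ_add]
    simp only [Matrix.transpose_apply, Matrix.of_apply, Fin.addCases_left, Fin.addCases_right]
    rw [e1, e2, Matrix.smul_apply, smul_eq_mul]
    push_cast; ring
  · ext i j
    rw [Matrix.mul_apply, Fin.sum_univ_add]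
    simp only [Matrix.transpose_apply, Matrix.of_apply, Fin.addCases_left, Fin.addCases_right,
      neg_mul_neg]
    rw [e1, e2, Matrix.smul_apply, smul_eq_mul]
    push_cast; ring
  · ext i j
    rw [Matrix.mul_apply, Fin.sum_univ_add]
    simp only [Matrix.transpose_apply, Matrix.of_apply, Fin.addCases_left, Fin.addCases_right,
      mul_neg, Finset.sum_neg_distrib]
    rw [e1, e2, Matrix.smul_apply, smul_eq_mul]
    ring

/-- pairs of partial Hadamard matrices -/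
theorem pairs (A : ℕ) : ∃ N₀ : ℕ, ∀ n : ℕ, N₀ ≤ n → 4 ∣ n →
    ∃ (r : ℕ) (e : ℤ) (H K : Matrix (Fin r) (Fin n) ℤ), (n : ℝ) - n / Real.log n ^ A ≤ 2 * r ∧
      |(e : ℝ)| ≤ n / Real.log n ^ A ∧
      (∀ i j, H i j = 1 ∨ H i j = -1) ∧ (∀ i j, K i j = 1 ∨ K i j = -1) ∧
      H * H.transpose = (n : ℤ) • (1 : Matrix (Fin r) (Fin r) ℤ) ∧
      K * K.transpose = (n : ℤ) • (1 : Matrix (Fin r) (Fin r) ℤ) ∧
      H * K.transpose = e • (1 : Matrix (Fin r) (Fin r) ℤ) := by
  obtain ⟨N0, hN03, hN0⟩ := orders (A + 1)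
  obtain ⟨N1, hN1⟩ := evN _ (Real.tendsto_log_atTop.eventually_ge_atTop 2)
  refine ⟨max N0 N1, fun n hn h4 => ?_⟩
  obtain ⟨b, hb, ha, h2b, hlow⟩ := hN0 n ((le_max_left _ _).trans hn) h4
  have hL : 2 ≤ Real.log n := hN1 n ((le_max_right _ _).trans hn)
  have hn0 : (0 : ℝ) ≤ n := Nat.cast_nonneg n
  have hlow2 : (n : ℝ) - n / Real.log n ^ A ≤ 2 * b := by
    have h1 : (n : ℝ) / Real.log n ^ (A + 1) ≤ (n / Real.log n ^ A) / 2 := by
      rw [pow_succ, ← div_div]
      exact div_le_div_of_nonneg_left (by positivity) (by norm_num) hL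
    linarith
  have key : ∀ N : ℕ, N = n - b + b → ∃ (H K : Matrix (Fin b) (Fin N) ℤ),
      (∀ i j, H i j = 1 ∨ H i j = -1) ∧ (∀ i j, K i j = 1 ∨ K i j = -1) ∧
      H * H.transpose = (N : ℤ) • (1 : Matrix (Fin b) (Fin b) ℤ) ∧
      K * K.transpose = (N : ℤ) • (1 : Matrix (Fin b) (Fin b) ℤ) ∧
      H * K.transpose = (((n - b : ℕ) : ℤ) - b) • (1 : Matrix (Fin b) (Fin b) ℤ) := by
    rintro N rfl
    exact side2 ha hb (by omega)
  obtain ⟨H, K, h1, h2, h3, h4', h5⟩ := key n (by omega)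
  refine ⟨b, ((n - b : ℕ) : ℤ) - b, H, K, hlow2, ?_, h1, h2, h3, h4', h5⟩
  have h6 : (((((n - b : ℕ) : ℤ) - b : ℤ)) : ℝ) = n - 2 * b := by
    have : (((n - b : ℕ) : ℤ) - b : ℤ) = (n : ℤ) - 2 * b := by omega
    rw [this]; push_cast; ring
  have h7 : (0 : ℝ) ≤ n - 2 * b := by
    have : (2 * b : ℝ) ≤ n := by exact_mod_cast h2b
    linarith
  rw [h6, abs_of_nonneg h7]
  linarith

end Pool.Agent.R926.PH
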