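import Pool.Agent.H442R2.EHI.PntErr
import Pool.Agent.H343R2.EH.Primes
import Pool.Agent.H343R2.EH.Psi

/-! Primes in progressions to small moduli in slightly short intervals. -/

set_option autoImplicit false

namespace Pool.Agent.R926.PH

open Finset

lemma evN (P : ℝ → Prop) (h : ∀ᶠ x : ℝ in Filter.atTop, P x) : ∃ N₀ : ℕ, ∀ N : ℕ, N₀ ≤ N → P N := by
  obtain ⟨x0, hx0⟩ := Filter.eventually_atTop.1 h
  exact ⟨⌈x0⌉₊, fun N hN => hx0 N ((Nat.le_ceil _).trans (by exact_mod_cast hN))⟩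

lemma ev_pow (k : ℕ) (c : ℝ) (s : ℝ) (hs : 0 < s) : ∀ᶠ x : ℝ in Filter.atTop, c * Real.log x ^ k ≤ x ^ s := by
  have h1 : (fun x : ℝ => Real.log x ^ (k : ℝ)) =o[Filter.atTop] fun x : ℝ => x ^ s :=
    isLittleO_log_rpow_rpow_atTop (k : ℝ) hs
  have h3 := (h1.const_mul_left c).def (c := 1) one_pos
  filter_upwards [h3, Filter.eventually_ge_atTop (1 : ℝ)] with x hx hx1
  rw [one_mul, Real.norm_of_nonneg (Real.rpow_nonneg (by linarith) _), Real.rpow_natCast] at hx
  exact (le_abs_self _).trans hx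

/-- Siegel-Walfisz for the number of primes in a progression -/
lemma sw_pi (U K : ℕ) : ∃ y0 : ℕ, ∀ y : ℕ, y0 ≤ y → ∀ q : ℕ, 1 ≤ q → (q : ℝ) ≤ Real.log y ^ K →
    ∀ c : ℕ, c < q → c.Coprime q →
    |H343E.piAP y q c - H343E.pi1 y / (Nat.totient q : ℝ)| ≤ y / Real.log y ^ U := by
  obtain ⟨B, X0, h0⟩ := H343E.primes_of U (H343E.unsmoothed (U + 2))
  obtain ⟨x1, h1⟩ := evN _ (ev_pow (2 * K + B) 1 1 one_pos)
  obtain ⟨x2, h2⟩ := evN _ (Real.tendsto_log_atTop.eventually_ge_atTop 1)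
  refine ⟨max (max X0 x1) (max x2 1), fun y hy q hq hqy c hc hcop => ?_⟩
  have hy0 : X0 ≤ y := le_trans (le_trans (le_max_left _ _) (le_max_left _ _)) hy
  have hy1 : x1 ≤ y := le_trans (le_trans (le_max_right _ _) (le_max_left _ _)) hy
  have hy2 : x2 ≤ y := le_trans (le_trans (le_max_left _ _) (le_max_right _ _)) hy
  have hy3 : 1 ≤ y := le_trans (le_trans (le_max_right _ _) (le_max_right _ _)) hy
  have hyR : (1 : ℝ) ≤ y := by exact_mod_cast hy3
  have hL := h2 y hy2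
  have hL0 : 0 < Real.log y := by linarith
  have hA := h1 y hy1
  rw [one_mul, pow_add, pow_mul', Real.rpow_one] at hA
  have hq1 : (1 : ℝ) ≤ q := by exact_mod_cast hq
  have hD2 : (q : ℝ) ^ 2 ≤ 1 * y / Real.log y ^ B := by
    rw [le_div_iff₀ (by positivity), one_mul]
    refine le_trans ?_ hA
    gcongr
  have hD1 : (q : ℝ) ≤ y / Real.log y ^ B := by
    rw [one_mul] at hD2
    refine le_trans ?_ hD2
    nlinarith
  have h4 := h0 y hy0 1 le_rfl q hD1 hD2 (fun q' => if q' = q then {c} else ∅)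
    ⟨fun q' a ha => by
      split_ifs at ha with hh
      · rw [mem_singleton] at ha
        rw [ha, hh]
        exact ⟨hc, hcop⟩
      · simp at ha, fun q' => by
      split_ifs <;> simp⟩
  rw [one_mul] at h4
  refine le_trans ?_ h4
  have h5 := single_le_sum (f := fun q' => ∑ a ∈ (if q' = q then ({c} : Finset ℕ) else ∅),
    |H343E.piAP y q' a - H343E.pi1 y / (Nat.totient q' : ℝ)|)
    (s := Icc 1 q) (fun i _ => sum_nonneg (fun _ _ => abs_nonneg _)) (mem_Icc.2 ⟨hq, le_rfl⟩)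
  refine le_trans (le_of_eq ?_) h5
  simp

lemma lis_sub (a b : ℕ) (ha : 2 ≤ a) (hab : a ≤ b) :
    ((b : ℝ) - a) / Real.log b ≤ Pool.Agent.H442R2.EHI.lis b - Pool.Agent.H442R2.EHI.lis a := by
  have h1 : Pool.Agent.H442R2.EHI.lis b = Pool.Agent.H442R2.EHI.lis a +
      ∑ n ∈ Ioc a b, 1 / Real.log n := by
    unfold Pool.Agent.H442R2.EHI.lis
    rw [← sum_union]
    · congr 1
      ext n
      simp only [mem_Icc, mem_union, mem_Ioc]
      omega
    · rw [disjoint_left]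
      intro n hn hn'
      rw [mem_Icc] at hn
      rw [mem_Ioc] at hn'
      omega
  rw [h1, add_sub_cancel_left]
  have h2 : ∑ n ∈ Ioc a b, 1 / Real.log b ≤ ∑ n ∈ Ioc a b, 1 / Real.log n := by
    apply sum_le_sum
    intro n hn
    rw [mem_Ioc] at hn
    have h3 : (1 : ℝ) < n := by exact_mod_cast (by omega : 1 < n)
    apply one_div_le_one_div_of_le (Real.log_pos h3)
    exact Real.log_le_log (by linarith) (by exact_mod_cast hn.2)
  rw [sum_const, Nat.card_Ioc, nsmul_eq_mul, Nat.cast_sub hab] at h2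
  rw [div_eq_mul_one_div]
  exact h2

/-- primes in progressions to small moduli in slightly short intervals -/
theorem exists_prime (A K : ℕ) : ∃ y0 : ℕ, ∀ y : ℕ, y0 ≤ y → ∀ q c : ℕ, 1 ≤ q →
    (q : ℝ) ≤ Real.log y ^ K → c.Coprime q →
    ∃ p : ℕ, p.Prime ∧ p ≡ c [MOD q] ∧ (y : ℝ) - y / Real.log y ^ (A + 1) < p ∧ p ≤ y := by
  set U : ℕ := A + 1 + K + 2 with hU
  obtain ⟨y1, h1⟩ := sw_pi U (K + 1)
  obtain ⟨C, hC⟩ := Pool.Agent.H442R2.EHI.pnt_err U
  obtain ⟨y2, h2⟩ := evN _ (Real.tendsto_log_atTop.eventually_ge_atTop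
    (max ((1 + 2 ^ U) * (|C| + 1) + 1) (2 ^ (K + 2))))
  refine ⟨max (2 * (y1 + 4)) y2, fun y hy q c hq hqy hcop => ?_⟩
  have hy1 : 2 * (y1 + 4) ≤ y := (le_max_left _ _).trans hy
  have hL := h2 y ((le_max_right _ _).trans hy)
  set L : ℝ := Real.log y with hLdef
  have hLa : (1 + 2 ^ U) * (|C| + 1) + 1 ≤ L := (le_max_left _ _).trans hL
  have hLb : (2 : ℝ) ^ (K + 2) ≤ L := (le_max_right _ _).trans hL
  have hL4 : (4 : ℝ) ≤ L := by
    refine le_trans ?_ hLb
    calc (4 : ℝ) = 2 ^ 2 := by norm_num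
      _ ≤ 2 ^ (K + 2) := pow_le_pow_right₀ (by norm_num) (by omega)
  have hL0 : 0 < L := by linarith
  have hy0 : (0 : ℝ) < y := by exact_mod_cast (by omega : 0 < y)
  have hyR : (8 : ℝ) ≤ y := by exact_mod_cast (by omega : 8 ≤ y)
  set h : ℝ := y / L ^ (A + 1) with hh
  have hh0 : 0 < h := by positivity
  have hh1 : h ≤ y / 4 := by
    rw [hh]
    apply div_le_div_of_nonneg_left hy0.le (by norm_num)
    calc (4 : ℝ) ≤ L := hL4
      _ = L ^ 1 := (pow_one L).symm
      _ ≤ L ^ (A + 1) := pow_le_pow_right₀ (by linarith) (by omega)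
  set z : ℕ := ⌊(y : ℝ) - h⌋₊ with hz
  have hzle : (z : ℝ) ≤ y - h := Nat.floor_le (by linarith)
  have hzlt : (y : ℝ) - h < z + 1 := Nat.lt_floor_add_one _
  have hzy : z ≤ y := by
    have : (z : ℝ) ≤ y := by linarith
    exact_mod_cast this
  have hz2 : (y : ℝ) / 2 ≤ z := by linarith
  have hz1 : y1 + 4 ≤ z := by
    have : ((y1 + 4 : ℕ) : ℝ) ≤ z := by
      have h3 : ((2 * (y1 + 4) : ℕ) : ℝ) ≤ y := by exact_mod_cast hy1
      push_cast at h3 ⊢
      linarith
    exact_mod_cast this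
  have hz0 : (0 : ℝ) < z := by linarith
  set L' : ℝ := Real.log z with hL'
  have hLL : L / 2 ≤ L' := by
    have h3 : Real.log ((y : ℝ) / 2) ≤ L' := Real.log_le_log (by linarith) hz2
    rw [Real.log_div hy0.ne' (by norm_num)] at h3
    have := Real.log_two_lt_d9
    linarith
  have hL'0 : 0 < L' := by linarith
  -- the class
  have hc' : c % q < q := Nat.mod_lt _ (by omega)
  have hcop' : (c % q).Coprime q := by
    rw [Nat.Coprime, ← Nat.gcd_rec, Nat.gcd_comm]
    exact hcop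
  have hq1 : (1 : ℝ) ≤ q := by exact_mod_cast hq
  have e1 := h1 y (by omega) q hq (hqy.trans (pow_le_pow_right₀ (by linarith) (by omega))) (c % q) hc' hcop'
  have hqz : (q : ℝ) ≤ L' ^ (K + 1) := by
    have h3 : (L / 2) ^ (K + 1) ≤ L' ^ (K + 1) := pow_le_pow_left₀ (by linarith) hLL _
    refine hqy.trans (le_trans ?_ h3)
    rw [div_pow, le_div_iff₀ (by positivity), pow_succ L K]
    apply mul_le_mul_of_nonneg_left _ (by positivity)
    refine le_trans ?_ hLb
    exact pow_le_pow_right₀ (by norm_num) (by omega)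
  have e2 := h1 z (by omega) q hq hqz (c % q) hc' hcop'
  have e3 := hC y (by omega)
  have e4 := hC z (by omega)
  have e5 := lis_sub z y (by omega) hzy
  rw [← hLdef] at e1 e3 e5
  rw [← hL'] at e2 e4
  set φ : ℝ := (Nat.totient q : ℝ) with hφ
  have hφ1 : 1 ≤ φ := by
    have h3 : 0 < Nat.totient q := Nat.totient_pos.mpr (by omega)
    rw [hφ]
    exact_mod_cast h3
  have hφq : φ ≤ L ^ K := by
    refine le_trans ?_ hqy
    rw [hφ]
    exact_mod_cast Nat.totient_le q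
  -- bounds of the errors by `y / L ^ U`
  have hzU : (z : ℝ) / L' ^ U ≤ 2 ^ U * (y / L ^ U) := by
    have h3 : (L / 2) ^ U ≤ L' ^ U := pow_le_pow_left₀ (by linarith) hLL _
    calc (z : ℝ) / L' ^ U ≤ y / (L / 2) ^ U := by
          apply div_le_div₀ hy0.le (by exact_mod_cast hzy) (by positivity) h3
      _ = 2 ^ U * (y / L ^ U) := by rw [div_pow]; field_simp
  set E : ℝ := y / L ^ U with hE
  have hE0 : 0 < E := by positivity
  have g3 : |H343E.pi1 y - Pool.Agent.H442R2.EHI.lis y| ≤ |C| * E := by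
    refine e3.trans ?_
    rw [hE, ← mul_div_assoc]
    gcongr
    exact le_abs_self C
  have g4 : |H343E.pi1 z - Pool.Agent.H442R2.EHI.lis z| ≤ |C| * (2 ^ U * E) := by
    refine e4.trans ?_
    rw [mul_div_assoc]
    calc C * ((z : ℝ) / L' ^ U) ≤ |C| * ((z : ℝ) / L' ^ U) :=
          mul_le_mul_of_nonneg_right (le_abs_self C) (by positivity)
      _ ≤ _ := mul_le_mul_of_nonneg_left hzU (abs_nonneg C)
  have g2 : |H343E.piAP z q (c % q) - H343E.pi1 z / φ| ≤ 2 ^ U * E := e2.trans hzU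
  rw [abs_le] at e1 g2 g3 g4
  have hlis : h / L ≤ Pool.Agent.H442R2.EHI.lis y - Pool.Agent.H442R2.EHI.lis z := by
    refine le_trans ?_ e5
    apply div_le_div_of_nonneg_right _ hL0.le
    linarith
  have hpi : h / L - (1 + 2 ^ U) * |C| * E ≤ H343E.pi1 y - H343E.pi1 z := by
    nlinarith [g3.1, g3.2, g4.1, g4.2]
  -- the main inequality
  have hmain : (1 + 2 ^ U) * (|C| + L ^ K) * E < h / L := by
    have h3 : h / L = L ^ (K + 1) * E := by
      rw [hh, hE, hU]
      have hexp : L ^ (A + 1 + K + 2) = L ^ (A + 1) * L ^ (K + 1) * L := by ring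
      rw [hexp]
      field_simp
    rw [h3]
    apply mul_lt_mul_of_pos_right _ hE0
    have h4 : 1 ≤ L ^ K := one_le_pow₀ (by linarith)
    have h5 : (1 + 2 ^ U) * (|C| + L ^ K) ≤ (1 + 2 ^ U) * (|C| + 1) * L ^ K := by
      have : |C| + L ^ K ≤ (|C| + 1) * L ^ K := by nlinarith [abs_nonneg C]
      rw [mul_assoc]
      exact mul_le_mul_of_nonneg_left this (by positivity)
    refine lt_of_le_of_lt h5 ?_
    rw [pow_succ' L K]
    apply mul_lt_mul_of_pos_right _ (by positivity)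
    linarith
  have hpos : 0 < H343E.piAP y q (c % q) - H343E.piAP z q (c % q) := by
    have h6 : H343E.pi1 y / φ - E ≤ H343E.piAP y q (c % q) := by linarith [e1.1]
    have h7 : H343E.piAP z q (c % q) ≤ H343E.pi1 z / φ + 2 ^ U * E := by linarith [g2.2]
    have h8 : (h / L - (1 + 2 ^ U) * |C| * E) / φ ≤ H343E.pi1 y / φ - H343E.pi1 z / φ := by
      rw [← sub_div]
      exact div_le_div_of_nonneg_right hpi (by linarith)
    have h9 : (1 + 2 ^ U) * E < (h / L - (1 + 2 ^ U) * |C| * E) / φ := by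
      rw [lt_div_iff₀ (by linarith)]
      have : (1 + 2 ^ U) * E * φ ≤ (1 + 2 ^ U) * E * L ^ K :=
        mul_le_mul_of_nonneg_left hφq (by positivity)
      nlinarith
    linarith
  -- a prime
  unfold H343E.piAP at hpos
  have hlt : ((Icc 1 z).filter (fun p => p.Prime ∧ p ≡ (c % q) [MOD q])).card <
      ((Icc 1 y).filter (fun p => p.Prime ∧ p ≡ (c % q) [MOD q])).card := by
    have : ((((Icc 1 z).filter (fun p => p.Prime ∧ p ≡ (c % q) [MOD q])).card : ℕ) : ℝ) <
      (((Icc 1 y).filter (fun p => p.Prime ∧ p ≡ (c % q) [MOD q])).card : ℕ) := by linarith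
    exact_mod_cast this
  obtain ⟨p, hp, hp'⟩ := exists_mem_notMem_of_card_lt_card hlt
  rw [mem_filter, mem_Icc] at hp
  have hpz : z < p := by
    by_contra hcon
    apply hp'
    rw [mem_filter, mem_Icc]
    exact ⟨⟨hp.1.1, by omega⟩, hp.2⟩
  refine ⟨p, hp.2.1, hp.2.2.trans (Nat.mod_modEq c q), ?_, hp.1.2⟩
  have : (z : ℝ) + 1 ≤ p := by exact_mod_cast hpz
  linarith

end Pool.Agent.R926.PH
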